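import Pool.Agent.H73.CBE.Stmts

/-!
Row CAU: Cauchy estimates.
-/

set_option autoImplicit false

open Set Filter Topology

namespace Pool.CBE

theorem cau_aux {A B : Type} [NormedAddCommGroup A] [NormedSpace ℂ A] [NormedAddCommGroup B]
    [NormedSpace ℂ B] [CompleteSpace B] (g : A → B) (z₀ z : A) (R ρ M : ℝ) (hρ : 0 < ρ)
    (hM : 0 ≤ M) (hg : ∀ y ∈ Metric.ball z₀ R, DifferentiableAt ℂ g y)
    (hb : ∀ y ∈ Metric.ball z₀ R, ‖g y‖ ≤ M) (hz : Metric.closedBall z ρ ⊆ Metric.ball z₀ R) :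
    ‖fderiv ℂ g z‖ ≤ M / ρ := by
  refine ContinuousLinearMap.opNorm_le_bound _ (by positivity) fun v => ?_
  by_cases hv : v = 0
  · simp [hv]
  have hv0 : 0 < ‖v‖ := norm_pos_iff.2 hv
  have hR : 0 < ρ / ‖v‖ := by positivity
  have hmem : ∀ s : ℂ, s ∈ Metric.closedBall (0 : ℂ) (ρ / ‖v‖) → z + s • v ∈ Metric.ball z₀ R := by
    intro s hs
    refine hz ?_
    rw [mem_closedBall_iff_norm] at hs ⊢
    rw [sub_zero] at hs
    rw [add_sub_cancel_left, norm_smul]
    rwa [le_div_iff₀ hv0] at hs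
  have hd : ∀ s : ℂ, HasDerivAt (fun s : ℂ => z + s • v) v s := by
    intro s
    have h1 : HasDerivAt (fun s : ℂ => s • v) ((1 : ℂ) • v) s :=
      (hasDerivAt_id s).smul_const v
    rw [one_smul] at h1
    exact h1.const_add z
  have h1 : DiffContOnCl ℂ (fun s : ℂ => g (z + s • v)) (Metric.ball 0 (ρ / ‖v‖)) := by
    refine DifferentiableOn.diffContOnCl ?_
    rw [closure_ball _ hR.ne']
    intro s hs
    exact ((hg _ (hmem s hs)).comp s (hd s).differentiableAt).differentiableWithinAt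
  have h2 := Complex.norm_deriv_le_of_forall_mem_sphere_norm_le hR h1 (C := M)
    (fun s hs => hb _ (hmem s (Metric.sphere_subset_closedBall hs)))
  have h3 : deriv (fun s : ℂ => g (z + s • v)) 0 = fderiv ℂ g z v := by
    have h4 : HasFDerivAt g (fderiv ℂ g z) (z + (0 : ℂ) • v) := by
      have h5 := (hg _ (hmem 0 (Metric.mem_closedBall_self hR.le))).hasFDerivAt
      simpa using h5
    exact (h4.comp_hasDerivAt (0 : ℂ) (hd 0)).deriv
  rw [h3] at h2
  refine h2.trans (le_of_eq ?_)
  field_simp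

theorem CAU_thm : CAUStmt := by
  intro n g z₀ r M hr hM hg hb
  have hat : ∀ y ∈ Metric.ball z₀ r, ContDiffAt ℂ 2 g y := fun y hy =>
    hg.contDiffAt (Metric.isOpen_ball.mem_nhds hy)
  have hda : ∀ y ∈ Metric.ball z₀ r, DifferentiableAt ℂ g y := fun y hy =>
    (hat y hy).differentiableAt (by norm_num)
  have h1 : ∀ z ∈ Metric.ball z₀ (3 * r / 4), ‖fderiv ℂ g z‖ ≤ 4 * M / r := by
    intro z hz
    have h2 := cau_aux g z₀ z r (r / 4) M (by positivity) hM hda hb (by
      intro y hy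
      rw [Metric.mem_closedBall] at hy
      rw [Metric.mem_ball] at hz ⊢
      have := dist_triangle y z z₀
      linarith)
    refine h2.trans (le_of_eq ?_)
    field_simp
  refine ⟨fun z hz => h1 z (Metric.ball_subset_ball (by linarith) hz), ?_⟩
  have hdb : ∀ y ∈ Metric.ball z₀ r, DifferentiableAt ℂ (fderiv ℂ g) y := by
    intro y hy
    have h3 : ContDiffAt ℂ 1 (fderiv ℂ g) y :=
      (hat y hy).fderiv_right (by norm_num)
    exact h3.differentiableAt (by norm_num)
  intro z hz y hy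
  have h4 : ∀ w ∈ Metric.ball z₀ (r / 2), ‖fderiv ℂ (fderiv ℂ g) w‖ ≤ 16 * M / r ^ 2 := by
    intro w hw
    have h5 := cau_aux (fderiv ℂ g) z₀ w (3 * r / 4) (r / 4) (4 * M / r) (by positivity)
      (by positivity) (fun y hy => hdb y (Metric.ball_subset_ball (by linarith) hy)) h1 (by
        intro y hy
        rw [Metric.mem_closedBall] at hy
        rw [Metric.mem_ball] at hw ⊢
        have := dist_triangle y w z₀
        linarith)
    refine h5.trans (le_of_eq ?_)
    field_simp
    ring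
  exact Convex.norm_image_sub_le_of_norm_fderiv_le (𝕜 := ℂ)
    (fun w hw => hdb w (Metric.ball_subset_ball (by linarith) hw)) h4 (convex_ball _ _) hy hz

end Pool.CBE
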